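import Pool.Agent.Helper20.QP.St1

/-!
# Project QD (MP_d112a4_gt), PART P, module BLL: area of hyperbolic discs, invariance of the area
-/

set_option autoImplicit false

open Filter Topology Matrix Set Metric MeasureTheory
open scoped ComplexConjugate ENNReal

namespace Pool.Agent.Helper38.QP

open Pool.Agent.Helper35.PM (hs Mat SL IsDiscrete)
open Pool.Agent.Helper20.QD Pool.Agent.Helper20.QP

private theorem det_mul (c : ℂ) (f : ℂ →L[ℝ] ℂ) (hf : ∀ v, f v = c * v) : f.det = ‖c‖ ^ 2 := by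
  rw [ContinuousLinearMap.det, ← LinearMap.det_toMatrix Complex.basisOneI, Matrix.det_fin_two]
  simp [LinearMap.toMatrix_apply, hf]
  rw [← Complex.normSq_eq_norm_sq, Complex.normSq_apply]

/-- `1 - ‖A z‖² = (1 - ‖z‖²) / ‖den A z‖²` -/
private theorem one_sub (A : SL) (hA : IsSU A) (z : ℂ) (hz : den A z ≠ 0) :
    (1 - ‖mob A z‖ ^ 2) * ‖den A z‖ ^ 2 = 1 - ‖z‖ ^ 2 := by
  obtain ⟨h1, h2⟩ := hA
  have hdet : (A : Mat) 0 0 * (A : Mat) 1 1 - (A : Mat) 0 1 * (A : Mat) 1 0 = 1 := by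
    have := A.det_coe
    rw [Matrix.det_fin_two] at this
    exact this
  have hn : ‖mob A z‖ ^ 2 * ‖den A z‖ ^ 2 = ‖(A : Mat) 0 0 * z + (A : Mat) 0 1‖ ^ 2 := by
    rw [← mul_pow, ← norm_mul]
    congr 2
    unfold mob
    have : (A : Mat) 1 0 * z + (A : Mat) 1 1 ≠ 0 := hz
    unfold den
    rw [div_mul_cancel₀ _ this]
  have hd : den A z = (A : Mat) 1 0 * z + (A : Mat) 1 1 := rfl
  rw [sub_mul, hn, one_mul, hd, h1, h2]
  rw [h1, h2] at hdet
  obtain ⟨a, ha⟩ : ∃ a : ℂ, a = (A : Mat) 0 0 := ⟨_, rfl⟩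
  obtain ⟨b, hb⟩ : ∃ b : ℂ, b = (A : Mat) 0 1 := ⟨_, rfl⟩
  rw [← ha, ← hb] at hdet ⊢
  have hre := congrArg Complex.re hdet
  simp only [Complex.sub_re, Complex.mul_re, Complex.conj_re, Complex.conj_im, Complex.one_re]
    at hre
  rw [← Complex.normSq_eq_norm_sq, ← Complex.normSq_eq_norm_sq, ← Complex.normSq_eq_norm_sq]
  simp only [Complex.normSq_apply, Complex.add_re, Complex.add_im, Complex.mul_re, Complex.mul_im,
    Complex.conj_re, Complex.conj_im]
  linear_combination (1 - (z.re * z.re + z.im * z.im)) * hre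

/-- invariance of the area -/
private theorem inv (hSUB : StSUB) (A : SL) (S : Set ℂ) (hA : IsSU A) (hS : MeasurableSet S)
    (hSD : S ⊆ D) : ar (mob A '' S) = ar S := by
  obtain ⟨hs1, _, _, _, hs5, _⟩ := hSUB
  obtain ⟨_, hden, hbij, _, _⟩ := hs1 A hA
  have hdn : ∀ z ∈ S, den A z ≠ 0 := fun z hz => hden z (ball_subset_closedBall (hSD hz))
  have hf : ∀ z ∈ S, HasFDerivWithinAt (mob A)
      ((ContinuousLinearMap.toSpanSingleton ℂ ((den A z ^ 2)⁻¹)).restrictScalars ℝ) S z := by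
    intro z hz
    exact ((hs5 A z (hdn z hz)).hasFDerivAt.restrictScalars ℝ).hasFDerivWithinAt
  unfold ar
  rw [lintegral_image_eq_lintegral_abs_det_fderiv_mul volume hS hf (hbij.injOn.mono hSD)]
  refine setLIntegral_congr_fun hS ?_
  intro z hz
  simp only
  have hd : ((ContinuousLinearMap.toSpanSingleton ℂ ((den A z ^ 2)⁻¹)).restrictScalars ℝ).det =
      ‖(den A z ^ 2)⁻¹‖ ^ 2 := by
    refine det_mul _ _ fun v => ?_
    rw [ContinuousLinearMap.coe_restrictScalars', ContinuousLinearMap.toSpanSingleton_apply,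
      smul_eq_mul, mul_comm]
  rw [hd, abs_of_nonneg (by positivity), ← ENNReal.ofReal_mul (by positivity)]
  congr 1
  have h1 := one_sub A hA z (hdn z hz)
  have hz1 : ‖z‖ < 1 := mem_ball_zero_iff.1 (hSD hz)
  have hz2 : 0 < 1 - ‖z‖ ^ 2 := by nlinarith [norm_nonneg z]
  have hn : 0 < ‖den A z‖ := norm_pos_iff.2 (hdn z hz)
  have hm : 0 < 1 - ‖mob A z‖ ^ 2 := by
    by_contra hc
    push Not at hc
    have : (1 - ‖mob A z‖ ^ 2) * ‖den A z‖ ^ 2 ≤ 0 :=
      mul_nonpos_of_nonpos_of_nonneg hc (by positivity)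
    linarith
  rw [← h1, norm_inv, norm_pow]
  field_simp

private theorem disc_area (R : ℝ) (hR0 : 0 < R) (hR1 : R < 1) :
    ar (ball 0 R) = ENNReal.ofReal (4 * Real.pi * (1 / (1 - R ^ 2) - 1)) := by
  have hpos : ∀ z : ℂ, ‖z‖ ≤ R → 0 < 1 - ‖z‖ ^ 2 := by
    intro z hz
    nlinarith [norm_nonneg z]
  have hcont : ContinuousOn (fun z : ℂ => 4 / (1 - ‖z‖ ^ 2) ^ 2) (closedBall 0 R) := by
    refine ContinuousOn.div continuousOn_const ?_ ?_
    · fun_prop
    · intro z hz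
      have := hpos z (mem_closedBall_zero_iff.1 hz)
      positivity
  have hint : IntegrableOn (fun z : ℂ => 4 / (1 - ‖z‖ ^ 2) ^ 2) (ball 0 R) :=
    (hcont.integrableOn_compact (isCompact_closedBall 0 R)).mono_set ball_subset_closedBall
  unfold ar
  rw [← ofReal_integral_eq_lintegral_ofReal hint (ae_of_all _ fun z => by positivity)]
  congr 1
  -- polar coordinates
  have e1 : ∫ z in ball (0 : ℂ) R, 4 / (1 - ‖z‖ ^ 2) ^ 2 =
      ∫ z : ℂ, (Iio R).indicator (fun y : ℝ => 4 / (1 - y ^ 2) ^ 2) ‖z‖ := by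
    rw [← integral_indicator measurableSet_ball]
    congr 1
    funext z
    by_cases hz : ‖z‖ < R
    · rw [indicator_of_mem (mem_ball_zero_iff.2 hz), indicator_of_mem (show ‖z‖ ∈ Iio R from hz)]
    · rw [indicator_of_notMem (fun h => hz (mem_ball_zero_iff.1 h)),
        indicator_of_notMem (show ‖z‖ ∉ Iio R from hz)]
  have e2 : (volume : Measure ℂ).real (ball 0 1) = Real.pi := by
    rw [Measure.real, Complex.volume_ball]
    simp
  have e3 : ∫ y in Ioi (0 : ℝ), y ^ (Module.finrank ℝ ℂ - 1) •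
      (Iio R).indicator (fun y : ℝ => 4 / (1 - y ^ 2) ^ 2) y =
      ∫ y in (0 : ℝ)..R, 4 * y / (1 - y ^ 2) ^ 2 := by
    rw [intervalIntegral.integral_of_le hR0.le, integral_Ioc_eq_integral_Ioo,
      ← integral_indicator measurableSet_Ioi, ← integral_indicator measurableSet_Ioo]
    congr 1
    funext y
    rw [Complex.finrank_real_complex]
    by_cases h0 : 0 < y
    · rw [indicator_of_mem (show y ∈ Ioi 0 from h0)]
      by_cases h1 : y < R
      · rw [indicator_of_mem (show y ∈ Iio R from h1),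
          indicator_of_mem (show y ∈ Ioo 0 R from ⟨h0, h1⟩)]
        simp only [smul_eq_mul]
        ring
      · rw [indicator_of_notMem (show y ∉ Iio R from h1),
          indicator_of_notMem (show y ∉ Ioo 0 R from fun h => h1 h.2)]
        simp
    · rw [indicator_of_notMem (show y ∉ Ioi 0 from h0),
        indicator_of_notMem (show y ∉ Ioo 0 R from fun h => h0 h.1)]
  have e4 : ∫ y in (0 : ℝ)..R, 4 * y / (1 - y ^ 2) ^ 2 = 2 / (1 - R ^ 2) - 2 := by
    have hy : ∀ y ∈ uIcc 0 R, 0 < 1 - y ^ 2 := by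
      intro y hy
      rw [uIcc_of_le hR0.le] at hy
      nlinarith [hy.1, hy.2]
    have hd : ∀ y ∈ uIcc 0 R, HasDerivAt (fun y : ℝ => 2 / (1 - y ^ 2))
        (4 * y / (1 - y ^ 2) ^ 2) y := by
      intro y hy'
      have h1 : HasDerivAt (fun y : ℝ => 1 - y ^ 2) (-(2 * y)) y := by
        have := (hasDerivAt_pow 2 y).const_sub 1
        simpa using this
      have h2 := (hasDerivAt_const y (2 : ℝ)).div h1 (hy y hy').ne'
      refine h2.congr_deriv ?_
      ring
    rw [intervalIntegral.integral_eq_sub_of_hasDerivAt hd]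
    · norm_num
    · apply ContinuousOn.intervalIntegrable
      refine ContinuousOn.div (by fun_prop) (by fun_prop) ?_
      intro y hy'
      have := hy y hy'
      positivity
  rw [e1, MeasureTheory.integral_fun_norm_addHaar, e2, e3, e4, Complex.finrank_real_complex]
  simp only [smul_eq_mul, nsmul_eq_mul]
  push_cast
  ring

theorem hBLL (hSUB : StSUB) (hMET : StMET) : StBLL := by
  refine ⟨fun A S hA hS hSD => inv hSUB A S hA hS hSD, ?_⟩
  intro z0 s hz0 hs
  obtain ⟨B, hB, hB0⟩ := hSUB.2.2.1 z0 hz0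
  obtain ⟨_, _, hbij, _, _⟩ := hSUB.1 B hB
  have h0D : (0 : ℂ) ∈ D := mem_ball_self one_pos
  obtain ⟨R, hR⟩ : ∃ R : ℝ, R = Real.sqrt (s / (1 + s)) := ⟨_, rfl⟩
  have hq0 : 0 < s / (1 + s) := by positivity
  have hq1 : s / (1 + s) < 1 := by
    rw [div_lt_one (by positivity)]
    linarith
  have hR0 : 0 < R := by rw [hR]; exact Real.sqrt_pos.2 hq0
  have hR2 : R ^ 2 = s / (1 + s) := by rw [hR]; exact Real.sq_sqrt hq0.le
  have hR1 : R < 1 := by nlinarith
  have hball : ball (0 : ℂ) R ⊆ D := ball_subset_ball hR1.le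
  have hdl : ∀ w : ℂ, w ∈ D → (dl 0 w < s ↔ ‖w‖ < R) := by
    intro w hw
    have hw1 : ‖w‖ < 1 := mem_ball_zero_iff.1 hw
    have hw2 : 0 < 1 - ‖w‖ ^ 2 := by nlinarith [norm_nonneg w]
    unfold dl
    rw [zero_sub, norm_neg, norm_zero]
    have e : (1 - (0 : ℝ) ^ 2) * (1 - ‖w‖ ^ 2) = 1 - ‖w‖ ^ 2 := by ring
    rw [e, div_lt_iff₀ hw2]
    have h1 : ‖w‖ < R ↔ ‖w‖ ^ 2 < R ^ 2 :=
      (pow_lt_pow_iff_left₀ (norm_nonneg w) hR0.le two_ne_zero).symm
    rw [h1, hR2, lt_div_iff₀ (by positivity)]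
    constructor
    · intro h
      linarith
    · intro h
      linarith
  have himg : {z | z ∈ D ∧ dl z0 z < s} = mob B '' ball 0 R := by
    ext z
    constructor
    · rintro ⟨hz, hlt⟩
      obtain ⟨w, hw, rfl⟩ := hbij.surjOn hz
      refine ⟨w, ?_, rfl⟩
      rw [← hB0, hMET.1 B 0 w hB h0D hw] at hlt
      exact mem_ball_zero_iff.2 ((hdl w hw).1 hlt)
    · rintro ⟨w, hw, rfl⟩
      have hwD := hball hw
      refine ⟨hbij.mapsTo hwD, ?_⟩
      rw [← hB0, hMET.1 B 0 w hB h0D hwD]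
      exact (hdl w hwD).2 (mem_ball_zero_iff.1 hw)
  rw [himg, inv hSUB B _ hB measurableSet_ball hball, disc_area R hR0 hR1]
  congr 1
  rw [hR2]
  have : 1 - s / (1 + s) = 1 / (1 + s) := by
    field_simp
    ring
  rw [this]
  field_simp
  ring

end Pool.Agent.Helper38.QP
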